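import Mathlib
import Pool.Agent.H451R3.Main

/-!
Polynomials in a smooth function with positive derivative are dense in the smooth functions on
`[0,1]`, with all their derivatives.
-/

set_option autoImplicit false

open Filter Topology Finset

namespace Pool.Agent.H967PS

open Pool.Agent.H451R3.PS

variable {𝕜 : Type*} [RCLike 𝕜]

/-- a common bound for finitely many derivatives on the interval -/
lemma bd_deriv {v : ℝ → 𝕜} (hv : ContDiffOn ℝ (⊤ : ℕ∞) v I) (N : ℕ) :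
    ∃ M : ℝ, 0 ≤ M ∧ ∀ k ≤ N, ∀ x ∈ I, ‖iteratedDerivWithin k v I x‖ ≤ M := by
  induction N with
  | zero =>
    have hc : ContinuousOn (iteratedDerivWithin 0 v I) I :=
      hv.continuousOn_iteratedDerivWithin (by exact_mod_cast le_top) uI
    obtain ⟨M, hM⟩ := isCompact_Icc.exists_bound_of_continuousOn hc
    refine ⟨max M 0, le_max_right _ _, fun k hk x hx => ?_⟩
    obtain rfl : k = 0 := by omega
    exact (hM x hx).trans (le_max_left _ _)
  | succ N ih =>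
    obtain ⟨M1, hM1, h1⟩ := ih
    have hc : ContinuousOn (iteratedDerivWithin (N + 1) v I) I :=
      hv.continuousOn_iteratedDerivWithin (by exact_mod_cast le_top) uI
    obtain ⟨M, hM⟩ := isCompact_Icc.exists_bound_of_continuousOn hc
    refine ⟨max M M1, hM1.trans (le_max_right _ _), fun k hk x hx => ?_⟩
    rcases Nat.lt_or_ge N k with h | h
    · obtain rfl : k = N + 1 := by omega
      exact (hM x hx).trans (le_max_left _ _)
    · exact (h1 k h x hx).trans (le_max_right _ _)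

/-- multiplication by a fixed smooth function is bounded -/
lemma mul_bd {v : ℝ → 𝕜} (hv : ContDiffOn ℝ (⊤ : ℕ∞) v I) (N : ℕ) :
    ∃ C : ℝ, 0 ≤ C ∧ ∀ w : ℝ → 𝕜, ContDiffOn ℝ (⊤ : ℕ∞) w I → ∀ ε : ℝ,
      (∀ k ≤ N, ∀ x ∈ I, ‖iteratedDerivWithin k w I x‖ ≤ ε) →
      ∀ k ≤ N, ∀ x ∈ I, ‖iteratedDerivWithin k (fun y => v y * w y) I x‖ ≤ C * ε := by
  obtain ⟨M, hM0, hM⟩ := bd_deriv hv N
  refine ⟨2 ^ N * M, by positivity, fun w hw ε hε k hk x hx => ?_⟩
  have hε0 : 0 ≤ ε := (norm_nonneg _).trans (hε 0 (Nat.zero_le _) x hx)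
  rw [← norm_iteratedFDerivWithin_eq_norm_iteratedDerivWithin]
  refine (norm_iteratedFDerivWithin_mul_le hv hw uI hx
    (by exact_mod_cast le_top)).trans ?_
  calc ∑ i ∈ Finset.range (k + 1), (k.choose i : ℝ) * ‖iteratedFDerivWithin ℝ i v I x‖ *
        ‖iteratedFDerivWithin ℝ (k - i) w I x‖
      ≤ ∑ i ∈ Finset.range (k + 1), (k.choose i : ℝ) * (M * ε) := by
        refine sum_le_sum fun i hi => ?_
        rw [norm_iteratedFDerivWithin_eq_norm_iteratedDerivWithin,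
          norm_iteratedFDerivWithin_eq_norm_iteratedDerivWithin, mul_assoc]
        apply mul_le_mul_of_nonneg_left _ (Nat.cast_nonneg _)
        exact mul_le_mul (hM i (by rw [mem_range] at hi; omega) x hx) (hε (k - i) (by omega) x hx)
          (norm_nonneg _) hM0
    _ = 2 ^ k * (M * ε) := by
        rw [← sum_mul, ← Nat.cast_sum, Nat.sum_range_choose]
        push_cast
        ring
    _ ≤ 2 ^ N * (M * ε) := by
        apply mul_le_mul_of_nonneg_right _ (by positivity)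
        exact pow_le_pow_right₀ (by norm_num) hk
    _ = 2 ^ N * M * ε := by ring

/-- antiderivatives of polynomials -/
lemma exists_antideriv (q : Polynomial 𝕜) : ∃ p : Polynomial 𝕜, p.derivative = q := by
  induction q using Polynomial.induction_on' with
  | add p q hp hq =>
    obtain ⟨p', rfl⟩ := hp
    obtain ⟨q', rfl⟩ := hq
    exact ⟨p' + q', Polynomial.derivative_add⟩
  | monomial n a =>
    refine ⟨Polynomial.monomial (n + 1) (a / ((n + 1 : ℕ) : 𝕜)), ?_⟩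
    rw [Polynomial.derivative_monomial, Nat.add_sub_cancel]
    congr 1
    exact div_mul_cancel₀ _ (by exact_mod_cast Nat.succ_ne_zero n)

section U

variable {u : ℝ → ℝ} (hu : ContDiff ℝ (⊤ : ℕ∞) u)

lemma hasDeriv_poly (hu : ContDiff ℝ (⊤ : ℕ∞) u) (p : Polynomial 𝕜) (x : ℝ) :
    HasDerivAt (fun y => p.eval ((u y : ℝ) : 𝕜)) (((deriv u x : ℝ) : 𝕜) *
      p.derivative.eval ((u x : ℝ) : 𝕜)) x := by
  have h1 : HasDerivAt u (deriv u x) x := ((hu.differentiable (by simp)) x).hasDerivAt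
  have h2 : HasDerivAt (fun y => ((u y : ℝ) : 𝕜)) ((deriv u x : ℝ) : 𝕜) x :=
    (RCLike.ofRealCLM (K := 𝕜)).hasFDerivAt.comp_hasDerivAt x h1
  have h3 := (p.hasDerivAt ((u x : ℝ) : 𝕜)).comp x h2
  rw [mul_comm] at h3
  exact h3

lemma contDiff_ofReal_comp (hu : ContDiff ℝ (⊤ : ℕ∞) u) :
    ContDiff ℝ (⊤ : ℕ∞) (fun y => ((u y : ℝ) : 𝕜)) :=
  (RCLike.ofRealCLM (K := 𝕜)).contDiff.comp hu

lemma contDiffOn_div_ofReal (hu : ContDiff ℝ (⊤ : ℕ∞) u) (h0 : ∀ x, u x ≠ 0) {g : ℝ → 𝕜}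
    (hg : ContDiffOn ℝ (⊤ : ℕ∞) g I) :
    ContDiffOn ℝ (⊤ : ℕ∞) (fun y => g y / ((u y : ℝ) : 𝕜)) I := by
  have h1 : (fun y => g y / ((u y : ℝ) : 𝕜)) = fun y => g y * (((u y)⁻¹ : ℝ) : 𝕜) := by
    funext y
    rw [RCLike.ofReal_inv, div_eq_mul_inv]
  rw [h1]
  exact hg.mul (contDiff_ofReal_comp (hu.inv h0)).contDiffOn

lemma contDiff_poly (hu : ContDiff ℝ (⊤ : ℕ∞) u) (p : Polynomial 𝕜) :
    ContDiff ℝ (⊤ : ℕ∞) (fun y => p.eval ((u y : ℝ) : 𝕜)) := by
  simp only [Polynomial.eval_eq_sum, Polynomial.sum]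
  apply ContDiff.sum
  intro i _
  exact contDiff_const.mul ((contDiff_ofReal_comp hu).pow i)

/-- uniform approximation of real functions -/
lemma approx_real (hu : ContDiff ℝ (⊤ : ℕ∞) u) (hu' : ∀ x, 0 < deriv u x) {g : ℝ → ℝ}
    (hg : ContinuousOn g I) {ε : ℝ} (hε : 0 < ε) :
    ∃ p : Polynomial ℝ, ∀ x ∈ I, |g x - p.eval (u x)| < ε := by
  have hmono : StrictMono u := strictMono_of_deriv_pos hu'
  set U : C(I, ℝ) := ⟨fun x => u x, hu.continuous.comp continuous_subtype_val⟩ with hU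
  set G : C(I, ℝ) := ⟨fun x => g x, continuousOn_iff_continuous_domRestrict.1 hg⟩ with hG
  have h1 : (Algebra.adjoin ℝ {U}).topologicalClosure = ⊤ := by
    apply ContinuousMap.subalgebra_topologicalClosure_eq_top_of_separatesPoints
    intro x y hxy
    refine ⟨U, ⟨U, Algebra.subset_adjoin (Set.mem_singleton U), rfl⟩, ?_⟩
    intro h
    exact hxy (Subtype.ext (hmono.injective h))
  have h2 : G ∈ closure ((Algebra.adjoin ℝ {U} : Subalgebra ℝ C(I, ℝ)) : Set C(I, ℝ)) := by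
    rw [← Subalgebra.topologicalClosure_coe, h1]
    exact Set.mem_univ _
  obtain ⟨H, hH, hd⟩ := Metric.mem_closure_iff.1 h2 ε hε
  rw [SetLike.mem_coe, Algebra.adjoin_singleton_eq_range_aeval] at hH
  obtain ⟨p, hp⟩ := hH
  refine ⟨p, fun x hx => ?_⟩
  have h3 : H ⟨x, hx⟩ = p.eval (u x) := by
    have h4 : H = Polynomial.aeval U p := hp.symm
    rw [h4]
    have h5 : (Polynomial.aeval U p) (⟨x, hx⟩ : I) =
        ContinuousMap.evalAlgHom ℝ ℝ (⟨x, hx⟩ : I) (Polynomial.aeval U p) := rfl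
    rw [h5, ← Polynomial.aeval_algHom_apply, Polynomial.coe_aeval_eq_eval]
    rfl
  have h6 := (ContinuousMap.dist_lt_iff hε).1 hd ⟨x, hx⟩
  rw [Real.dist_eq, h3] at h6
  exact h6

/-- uniform approximation -/
lemma approx_zero (hu : ContDiff ℝ (⊤ : ℕ∞) u) (hu' : ∀ x, 0 < deriv u x) {g : ℝ → 𝕜}
    (hg : ContinuousOn g I) {ε : ℝ} (hε : 0 < ε) :
    ∃ p : Polynomial 𝕜, ∀ x ∈ I, ‖g x - p.eval ((u x : ℝ) : 𝕜)‖ ≤ ε := by
  obtain ⟨p, hp⟩ := approx_real hu hu' (g := fun x => RCLike.re (g x))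
    (RCLike.continuous_re.comp_continuousOn hg) (half_pos hε)
  obtain ⟨q, hq⟩ := approx_real hu hu' (g := fun x => RCLike.im (g x))
    (RCLike.continuous_im.comp_continuousOn hg) (half_pos hε)
  refine ⟨p.map (algebraMap ℝ 𝕜) + Polynomial.C RCLike.I * q.map (algebraMap ℝ 𝕜), fun x hx => ?_⟩
  have h1 : ∀ r : Polynomial ℝ, (r.map (algebraMap ℝ 𝕜)).eval ((u x : ℝ) : 𝕜) =
      ((r.eval (u x) : ℝ) : 𝕜) := by
    intro r
    rw [← RCLike.algebraMap_eq_ofReal, Polynomial.eval_map_algebraMap, Polynomial.aeval_algebraMap_apply]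
    rfl
  rw [Polynomial.eval_add, Polynomial.eval_mul, Polynomial.eval_C, h1, h1]
  have h2 : g x - (((p.eval (u x) : ℝ) : 𝕜) + RCLike.I * ((q.eval (u x) : ℝ) : 𝕜)) =
      ((RCLike.re (g x) - p.eval (u x) : ℝ) : 𝕜) + ((RCLike.im (g x) - q.eval (u x) : ℝ) : 𝕜) *
        RCLike.I := by
    conv_lhs => rw [← RCLike.re_add_im (g x)]
    push_cast
    ring
  rw [h2]
  refine (norm_add_le _ _).trans ?_
  rw [norm_mul, RCLike.norm_ofReal, RCLike.norm_ofReal]
  have h3 : ‖(RCLike.I : 𝕜)‖ ≤ 1 := by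
    by_cases h : (RCLike.I : 𝕜) = 0
    · rw [h, norm_zero]
      exact zero_le_one
    · exact (RCLike.norm_I_of_ne_zero h).le
  have h4 := (hp x hx).le
  have h5 := (hq x hx).le
  have h6 := abs_nonneg (RCLike.im (g x) - q.eval (u x))
  nlinarith [norm_nonneg (RCLike.I : 𝕜)]

/-- approximation of finitely many derivatives -/
theorem approx (hu : ContDiff ℝ (⊤ : ℕ∞) u) (hu' : ∀ x, 0 < deriv u x) (N : ℕ) :
    ∀ g : ℝ → 𝕜, ContDiffOn ℝ (⊤ : ℕ∞) g I → ∀ ε : ℝ, 0 < ε →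
      ∃ p : Polynomial 𝕜, ∀ k ≤ N, ∀ x ∈ I,
        ‖iteratedDerivWithin k (fun y => g y - p.eval ((u y : ℝ) : 𝕜)) I x‖ ≤ ε := by
  induction N with
  | zero =>
    intro g hg ε hε
    obtain ⟨p, hp⟩ := approx_zero hu hu' hg.continuousOn hε
    refine ⟨p, fun k hk x hx => ?_⟩
    obtain rfl : k = 0 := by omega
    rw [iteratedDerivWithin_zero]
    exact hp x hx
  | succ N ih =>
    intro g hg ε hε
    have hdu : ContDiff ℝ (⊤ : ℕ∞) (deriv u) := (contDiff_infty_iff_deriv.1 hu).2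
    have hv : ContDiff ℝ (⊤ : ℕ∞) (fun y => ((deriv u y : ℝ) : 𝕜)) := contDiff_ofReal_comp hdu
    have hv0 : ∀ x, ((deriv u x : ℝ) : 𝕜) ≠ 0 := fun x => by
      rw [Ne, RCLike.ofReal_eq_zero]
      exact (hu' x).ne'
    obtain ⟨C, hC, hmul⟩ := mul_bd (𝕜 := 𝕜) hv.contDiffOn N
    have hg' : ContDiffOn ℝ (⊤ : ℕ∞) (derivWithin g I) I := hg.derivWithin uI (by simp)
    obtain ⟨q, hq⟩ := ih (fun y => derivWithin g I y / ((deriv u y : ℝ) : 𝕜))
      (contDiffOn_div_ofReal hdu (fun x => (hu' x).ne') hg') (ε / (C + 1)) (by positivity)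
    obtain ⟨r, hr⟩ := exists_antideriv q
    set p := r + Polynomial.C (g 0 - r.eval ((u 0 : ℝ) : 𝕜)) with hp
    have hpd : p.derivative = q := by
      rw [hp, Polynomial.derivative_add, Polynomial.derivative_C, add_zero, hr]
    have hp0 : p.eval ((u 0 : ℝ) : 𝕜) = g 0 := by
      rw [hp, Polynomial.eval_add, Polynomial.eval_C]
      ring
    have hd : ∀ x ∈ I, HasDerivWithinAt (fun y => g y - p.eval ((u y : ℝ) : 𝕜))
        (((deriv u x : ℝ) : 𝕜) * (derivWithin g I x / ((deriv u x : ℝ) : 𝕜) -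
          q.eval ((u x : ℝ) : 𝕜))) I x := by
      intro x hx
      have h1 : HasDerivWithinAt g (derivWithin g I x) I x :=
        ((hg.differentiableOn (by simp)) x hx).hasDerivWithinAt
      have h2 := (hasDeriv_poly (𝕜 := 𝕜) hu p x).hasDerivWithinAt (s := I)
      have h3 := h1.sub h2
      rw [hpd] at h3
      refine h3.congr_deriv ?_
      rw [mul_sub, mul_div_cancel₀ _ (hv0 x)]
    have hdd : Set.EqOn (derivWithin (fun y => g y - p.eval ((u y : ℝ) : 𝕜)) I)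
        (fun x => ((deriv u x : ℝ) : 𝕜) * (derivWithin g I x / ((deriv u x : ℝ) : 𝕜) -
          q.eval ((u x : ℝ) : 𝕜))) I := fun x hx => (hd x hx).derivWithin (uI x hx)
    have hw : ContDiffOn ℝ (⊤ : ℕ∞) (fun x => derivWithin g I x / ((deriv u x : ℝ) : 𝕜) -
          q.eval ((u x : ℝ) : 𝕜)) I :=
      (contDiffOn_div_ofReal hdu (fun x => (hu' x).ne') hg').sub (contDiff_poly hu q).contDiffOn
    have hb : ∀ k ≤ N, ∀ x ∈ I, ‖iteratedDerivWithin k (derivWithin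
        (fun y => g y - p.eval ((u y : ℝ) : 𝕜)) I) I x‖ ≤ ε := by
      intro k hk x hx
      rw [iteratedDerivWithin_congr hdd hx]
      refine (hmul _ hw _ hq k hk x hx).trans ?_
      rw [mul_div_assoc', div_le_iff₀ (by positivity)]
      nlinarith
    refine ⟨p, fun k hk x hx => ?_⟩
    rcases Nat.eq_zero_or_pos k with h0 | h0
    · subst h0
      rw [iteratedDerivWithin_zero]
      have h1 : DifferentiableOn ℝ (fun y => g y - p.eval ((u y : ℝ) : 𝕜)) I :=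
        fun y hy => (hd y hy).differentiableWithinAt
      have h2 := (convex_Icc (0 : ℝ) 1).norm_image_sub_le_of_norm_derivWithin_le h1 (C := ε)
        (fun y hy => by
          have := hb 0 (Nat.zero_le _) y hy
          rwa [iteratedDerivWithin_zero] at this) (x := 0) (y := x) (by simp) hx
      simp only [hp0, sub_self, sub_zero] at h2
      refine h2.trans ?_
      rw [Real.norm_eq_abs, abs_of_nonneg hx.1]
      nlinarith [hx.2, hx.1]
    · obtain ⟨m, rfl⟩ := Nat.exists_eq_add_of_le' h0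
      rw [iteratedDerivWithin_succ']
      exact hb m (by omega) x hx

/-- the same for polynomials without constant term -/
theorem approx' (hu : ContDiff ℝ (⊤ : ℕ∞) u) (hu' : ∀ x, 0 < deriv u x) (hu0 : ∀ x, 0 < u x)
    (N : ℕ) (g : ℝ → 𝕜) (hg : ContDiffOn ℝ (⊤ : ℕ∞) g I) (ε : ℝ) (hε : 0 < ε) :
    ∃ p : Polynomial 𝕜, ∀ k ≤ N, ∀ x ∈ I, ‖iteratedDerivWithin k
        (fun y => g y - ((u y : ℝ) : 𝕜) * p.eval ((u y : ℝ) : 𝕜)) I x‖ ≤ ε := by
  have hv : ContDiff ℝ (⊤ : ℕ∞) (fun y => ((u y : ℝ) : 𝕜)) := contDiff_ofReal_comp hu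
  have hv0 : ∀ x, ((u x : ℝ) : 𝕜) ≠ 0 := fun x => by
    rw [Ne, RCLike.ofReal_eq_zero]
    exact (hu0 x).ne'
  obtain ⟨C, hC, hmul⟩ := mul_bd (𝕜 := 𝕜) hv.contDiffOn N
  obtain ⟨p, hp⟩ := approx hu hu' N (fun y => g y / ((u y : ℝ) : 𝕜))
    (contDiffOn_div_ofReal hu (fun x => (hu0 x).ne') hg) (ε / (C + 1)) (by positivity)
  refine ⟨p, fun k hk x hx => ?_⟩
  have h1 : (fun y => g y - ((u y : ℝ) : 𝕜) * p.eval ((u y : ℝ) : 𝕜)) =
      fun y => ((u y : ℝ) : 𝕜) * (g y / ((u y : ℝ) : 𝕜) - p.eval ((u y : ℝ) : 𝕜)) := by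
    funext y
    rw [mul_sub, mul_div_cancel₀ _ (hv0 y)]
  rw [h1]
  refine (hmul _ ((contDiffOn_div_ofReal hu (fun x => (hu0 x).ne') hg).sub (contDiff_poly hu p).contDiffOn)
    _ hp k hk x hx).trans ?_
  rw [mul_div_assoc', div_le_iff₀ (by positivity)]
  nlinarith

end U

end Pool.Agent.H967PS
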