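import Mathlib
import Pool.Agent.H451R3.Alg

/-!
An everywhere singular smooth function with positive derivative, and exponential polynomials in it.
-/

set_option autoImplicit false

open Filter Topology Finset

namespace Pool.Agent.H967PS

open Pool.Agent.H451R3.PS

/-- a bound for the derivative of the singular function -/
noncomputable def kk : ℝ := ∑' i, bb (fun _ => (0 : ℝ)) i 1

lemma f0_deriv (x : ℝ) : HasDerivAt f0 (deriv f0 x) x :=
  ((contDiff_f0.differentiable (by simp)) x).hasDerivAt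

lemma f0_deriv_le (x : ℝ) : |deriv f0 x| ≤ kk := by
  have h1 : deriv f0 x = TT (fun _ => (0 : ℝ)) (fun _ => (1 : ℝ)) 1 x := by
    have h2 := iteratedDeriv_TT (fun _ => (0 : ℝ)) one_bd 1
    rw [iteratedDeriv_one] at h2
    exact congrFun h2 x
  rw [h1, ← Real.norm_eq_abs]
  unfold TT kk
  apply tsum_of_norm_bounded (summable_bb (fun _ => (0 : ℝ)) 1).hasSum
  intro i
  have := norm_term_le (fun _ => (0 : ℝ)) one_bd i 1 x
  rwa [mul_one] at this

/-- the singular function with a linear function added, so that it is strictly increasing -/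
noncomputable def F (x : ℝ) : ℝ := f0 x + (kk + 1) * x

lemma contDiff_F : ContDiff ℝ (⊤ : ℕ∞) F := contDiff_f0.add (contDiff_const.mul contDiff_id)

lemma hasDerivAt_F (x : ℝ) : HasDerivAt F (deriv f0 x + (kk + 1)) x := by
  have h := (f0_deriv x).add ((hasDerivAt_id x).const_mul (kk + 1))
  rw [mul_one] at h
  exact h

lemma deriv_F : deriv F = fun x => deriv f0 x + (kk + 1) := funext fun x => (hasDerivAt_F x).deriv

lemma deriv_F_pos (x : ℝ) : 0 < deriv F x := by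
  rw [deriv_F]
  have := (abs_le.1 (f0_deriv_le x)).1
  simp only
  linarith

lemma deriv_deriv_F : deriv (deriv F) = deriv (deriv f0) := by
  rw [deriv_F]
  funext x
  exact deriv_add_const _

lemma iteratedDeriv_F (n : ℕ) : iteratedDeriv (n + 2) F = iteratedDeriv (n + 2) f0 := by
  rw [iteratedDeriv_succ', iteratedDeriv_succ', iteratedDeriv_succ', iteratedDeriv_succ',
    deriv_deriv_F]

lemma F_large (x : ℝ) (N : ℕ) : ∃ n ≥ N, 1 * (n.factorial : ℝ) ^ 2 ≤ ‖iteratedDeriv n F x‖ := by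
  obtain ⟨n, hn, h⟩ := f0_large x (max N 2)
  have h2 : 2 ≤ n := (le_max_right _ _).trans hn
  obtain ⟨m, rfl⟩ := Nat.exists_eq_add_of_le' h2
  refine ⟨m + 2, (le_max_left _ _).trans hn, ?_⟩
  rw [iteratedDeriv_F]
  exact h

lemma F_radius (x : ℝ) : (FormalMultilinearSeries.ofScalars ℝ
    (fun n : ℕ => iteratedDeriv n F x / (n.factorial : ℝ))).radius = 0 :=
  radius_zero (fun n => iteratedDeriv n F x) 1 one_pos (F_large x)

lemma F_comp {h : ℝ → ℝ} (hh : ∀ s, AnalyticAt ℝ h s)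
    (hnc : ∀ s, ¬ ∀ᶠ t in 𝓝 s, h t = h s) (x0 : ℝ) :
    (FormalMultilinearSeries.ofScalars ℝ
      (fun n : ℕ => iteratedDeriv n (h ∘ F) x0 / (n.factorial : ℝ))).radius = 0 := by
  by_contra hne
  have hg : ContDiff ℝ (⊤ : ℕ∞) (h ∘ F) :=
    (contDiff_iff_contDiffAt.2 fun s => (hh s).contDiffAt).comp contDiff_F
  obtain ⟨n, hn, hn'⟩ := F_large x0 1
  have h1 := key contDiff_F (hh (F x0)) (hnc (F x0)) ⟨n, hn, fun h0 => by
    rw [h0, norm_zero] at hn'
    have : (0 : ℝ) < 1 * (n.factorial : ℝ) ^ 2 := by positivity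
    linarith⟩ hg rfl (pos_iff_ne_zero.2 hne)
  rw [F_radius] at h1
  exact lt_irrefl _ h1

section K

variable {𝕜 : Type*} [RCLike 𝕜]

lemma F_clm {h : ℝ → 𝕜} (hh : ∀ s, AnalyticAt ℝ h s) (h0 : Tendsto h atBot (𝓝 0))
    (L : 𝕜 →L[ℝ] ℝ) (hL : ∀ z, ‖L z‖ ≤ ‖z‖) {s1 : ℝ} (hne : L (h s1) ≠ 0) (x0 : ℝ) :
    (FormalMultilinearSeries.ofScalars 𝕜
      (fun n : ℕ => iteratedDeriv n (h ∘ F) x0 / (n.factorial : 𝕜))).radius = 0 := by
  have hR : ∀ s, AnalyticAt ℝ (L ∘ h) s := fun s => L.analyticAt _ |>.comp (hh s)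
  have hg : ContDiff ℝ (⊤ : ℕ∞) (h ∘ F) :=
    (contDiff_iff_contDiffAt.2 fun s => (hh s).contDiffAt).comp contDiff_F
  have h1 := F_comp hR (by
    intro s hs
    have h2 : L ∘ h = fun _ => (L ∘ h) s :=
      AnalyticOnNhd.eq_of_eventuallyEq (fun t _ => hR t) (fun t _ => analyticAt_const) hs
    have h3 : Tendsto (L ∘ h) atBot (𝓝 0) := by
      have := (L.continuous.tendsto 0).comp h0
      rwa [map_zero] at this
    have h4 : (L ∘ h) s = 0 := by
      rw [h2] at h3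
      exact tendsto_nhds_unique tendsto_const_nhds h3
    have h5 : (L ∘ h) s1 = (L ∘ h) s := congrFun h2 s1
    rw [h4] at h5
    exact hne h5) x0
  refine le_antisymm ?_ bot_le
  rw [← h1]
  apply FormalMultilinearSeries.radius_le_of_le
  intro n
  rw [FormalMultilinearSeries.ofScalars_norm, FormalMultilinearSeries.ofScalars_norm,
    norm_div, norm_div, RCLike.norm_natCast, RCLike.norm_natCast, Function.comp_assoc,
    iteratedDeriv_clm hg]
  exact div_le_div_of_nonneg_right (hL _) (Nat.cast_nonneg _)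

lemma F_comp' {h : ℝ → 𝕜} (hh : ∀ s, AnalyticAt ℝ h s) (h0 : Tendsto h atBot (𝓝 0))
    (hne : h ≠ 0) (x0 : ℝ) : (FormalMultilinearSeries.ofScalars 𝕜
      (fun n : ℕ => iteratedDeriv n (h ∘ F) x0 / (n.factorial : 𝕜))).radius = 0 := by
  obtain ⟨s1, hs1⟩ : ∃ s, h s ≠ 0 := by
    by_contra hcon
    push Not at hcon
    exact hne (funext hcon)
  by_cases hre : RCLike.re (h s1) = 0
  · have him : RCLike.im (h s1) ≠ 0 := by
      intro him
      apply hs1
      apply RCLike.ext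
      · rw [hre, map_zero]
      · rw [him, map_zero]
    exact F_clm hh h0 RCLike.imCLM (fun z => by
      rw [RCLike.imCLM_apply, Real.norm_eq_abs]; exact RCLike.abs_im_le_norm z)
      (s1 := s1) (by rwa [RCLike.imCLM_apply]) x0
  · exact F_clm hh h0 RCLike.reCLM (fun z => by
      rw [RCLike.reCLM_apply, Real.norm_eq_abs]; exact RCLike.abs_re_le_norm z)
      (s1 := s1) (by rwa [RCLike.reCLM_apply]) x0

variable {ι : Type*}

/-- the generators -/
noncomputable def EF (b : ι → ℝ) (i : ι) : C(I, 𝕜) where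
  toFun x := ((Real.exp (b i * F x) : ℝ) : 𝕜)
  continuous_toFun := by
    have := contDiff_F.continuous
    have h2 := RCLike.continuous_ofReal (K := 𝕜)
    fun_prop

lemma aeval_EF (b : ι → ℝ) (p : MvPolynomial ι 𝕜) (x : I) :
    (MvPolynomial.aeval (EF b : ι → C(I, 𝕜)) p) x = hp b p (F x) := by
  have h1 : (MvPolynomial.aeval (EF b : ι → C(I, 𝕜)) p) x =
      ContinuousMap.evalAlgHom 𝕜 𝕜 x (MvPolynomial.aeval (EF b : ι → C(I, 𝕜)) p) := rfl
  rw [h1, MvPolynomial.comp_aeval_apply, MvPolynomial.aeval_def, MvPolynomial.eval₂_eq]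
  unfold hp
  refine sum_congr rfl fun m _ => ?_
  have h2 : ∀ i, (ContinuousMap.evalAlgHom 𝕜 𝕜 x) (EF b i) = ((Real.exp (b i * F x) : ℝ) : 𝕜) :=
    fun i => rfl
  simp only [h2]
  rw [Algebra.algebraMap_self, RingHom.id_apply]
  congr 1
  rw [wt, sum_mul, Real.exp_sum, RCLike.ofReal_prod]
  refine prod_congr rfl fun i _ => ?_
  rw [← RCLike.ofReal_pow, ← Real.exp_nat_mul]
  congr 2
  ring

lemma ext_eqF (b : ι → ℝ) (p : MvPolynomial ι 𝕜) {x : ℝ} (hx : x ∈ I) :
    ext (MvPolynomial.aeval (EF b : ι → C(I, 𝕜)) p : I → 𝕜) x = (hp b p ∘ F) x := by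
  rw [ext_apply _ hx]
  exact aeval_EF b p ⟨x, hx⟩

lemma contDiff_hpF (b : ι → ℝ) (p : MvPolynomial ι 𝕜) : ContDiff ℝ (⊤ : ℕ∞) (hp b p ∘ F) :=
  (contDiff_iff_contDiffAt.2 fun s => (hp_analytic b p s).contDiffAt).comp contDiff_F

lemma radius_aevalF {b : ι → ℝ} (hb : LinearIndependent ℚ b) (hb0 : ∀ i, 0 < b i)
    {p : MvPolynomial ι 𝕜} (hp0 : MvPolynomial.constantCoeff p = 0) (hne : p ≠ 0) (x : I) :
    (FormalMultilinearSeries.ofScalars 𝕜 (fun n : ℕ => iteratedDerivWithin n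
      (ext (MvPolynomial.aeval (EF b : ι → C(I, 𝕜)) p : I → 𝕜)) I x / (n.factorial : 𝕜))).radius = 0 := by
  have h1 := F_comp' (hp_analytic b p) (hp_tendsto hb0 hp0) (hp_ne_zero hb hne) x
  rw [← h1]
  congr 2
  funext n
  rw [iteratedDerivWithin_congr (fun y hy => ext_eqF b p hy) x.2,
    iteratedDerivWithin_eq_iteratedDeriv uI ((contDiff_hpF b p).contDiffAt.of_le
      (by exact_mod_cast le_top)) x.2]

lemma indepF [Nonempty ι] {b : ι → ℝ} (hb : LinearIndependent ℚ b) (hb0 : ∀ i, 0 < b i) :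
    AlgebraicIndependent 𝕜 (EF b : ι → C(I, 𝕜)) := by
  rw [algebraicIndependent_iff]
  intro p hp0
  by_contra hne
  obtain ⟨i⟩ := ‹Nonempty ι›
  have h1 : MvPolynomial.X i * p ≠ 0 := mul_ne_zero (MvPolynomial.X_ne_zero i) hne
  have h2 : MvPolynomial.constantCoeff (MvPolynomial.X i * p) = 0 := by
    rw [map_mul, MvPolynomial.constantCoeff_X, zero_mul]
  have h3 := radius_aevalF hb hb0 h2 h1 ⟨0, by simp⟩
  rw [map_mul, hp0, mul_zero] at h3
  rw [radius_top (by rfl)] at h3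
  exact ENNReal.top_ne_zero h3

lemma mem_adjoinF {b : ι → ℝ} {g : C(I, 𝕜)}
    (hg : g ∈ NonUnitalAlgebra.adjoin 𝕜 (Set.range (EF b : ι → C(I, 𝕜)))) :
    ∃ p : MvPolynomial ι 𝕜, MvPolynomial.constantCoeff p = 0 ∧ MvPolynomial.aeval (EF b) p = g := by
  induction hg using NonUnitalAlgebra.adjoin_induction with
  | mem x hx =>
    obtain ⟨i, rfl⟩ := hx
    exact ⟨MvPolynomial.X i, by simp, MvPolynomial.aeval_X _ i⟩
  | add x y _ _ hx hy =>
    obtain ⟨p, hp, rfl⟩ := hx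
    obtain ⟨q, hq, rfl⟩ := hy
    exact ⟨p + q, by rw [map_add, hp, hq, add_zero], map_add _ _ _⟩
  | zero => exact ⟨0, map_zero _, map_zero _⟩
  | mul x y _ _ hx hy =>
    obtain ⟨p, hp, rfl⟩ := hx
    obtain ⟨q, hq, rfl⟩ := hy
    exact ⟨p * q, by rw [map_mul, hp, zero_mul], map_mul _ _ _⟩
  | smul r x _ hx =>
    obtain ⟨p, hp, rfl⟩ := hx
    exact ⟨r • p, by rw [MvPolynomial.smul_eq_C_mul, map_mul, hp, mul_zero], map_smul _ _ _⟩

end K

end Pool.Agent.H967PS
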