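import Mathlib
import Pool.Agent.H967PS.Fam
import Pool.Agent.H967PS.Dense

/-!
Density of the algebras generated by the exponentials.
-/

set_option autoImplicit false

open Filter Topology Finset

namespace Pool.Agent.H967PS

open Pool.Agent.H451R3.PS

variable {𝕜 : Type*} [RCLike 𝕜]

lemma mul_aeval_mem (s : C(I, 𝕜)) (p : Polynomial 𝕜) :
    s * Polynomial.aeval s p ∈ NonUnitalAlgebra.adjoin 𝕜 {s} := by
  have hs : s ∈ NonUnitalAlgebra.adjoin 𝕜 {s} :=
    NonUnitalAlgebra.subset_adjoin 𝕜 (Set.mem_singleton s)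
  have hpow : ∀ n : ℕ, s ^ (n + 1) ∈ NonUnitalAlgebra.adjoin 𝕜 {s} := by
    intro n
    induction n with
    | zero =>
      rw [zero_add, pow_one]
      exact hs
    | succ n ih =>
      rw [pow_succ]
      exact mul_mem ih hs
  induction p using Polynomial.induction_on' with
  | add p q hp hq =>
    rw [map_add, mul_add]
    exact add_mem hp hq
  | monomial n a =>
    rw [Polynomial.aeval_monomial]
    have h1 : s * (algebraMap 𝕜 C(I, 𝕜) a * s ^ n) = a • s ^ (n + 1) := by
      rw [Algebra.smul_def, pow_succ]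
      ring
    rw [h1]
    exact SMulMemClass.smul_mem a (hpow n)

variable {u : ℝ → ℝ}

lemma mul_aeval_apply {s : C(I, 𝕜)} (hs : ∀ x : I, s x = ((u x : ℝ) : 𝕜)) (p : Polynomial 𝕜)
    (x : I) : (s * Polynomial.aeval s p) x = ((u x : ℝ) : 𝕜) * p.eval ((u x : ℝ) : 𝕜) := by
  rw [ContinuousMap.mul_apply, hs]
  congr 1
  have h5 : (Polynomial.aeval s p) x =
      ContinuousMap.evalAlgHom 𝕜 𝕜 x (Polynomial.aeval s p) := rfl
  rw [h5, ← Polynomial.aeval_algHom_apply, Polynomial.coe_aeval_eq_eval]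
  congr 1
  exact hs x

/-- one generator already generates a dense algebra -/
theorem dense_single (hu : ContDiff ℝ (⊤ : ℕ∞) u) (hu' : ∀ x, 0 < deriv u x) (hu0 : ∀ x, 0 < u x)
    {s : C(I, 𝕜)} (hs : ∀ x : I, s x = ((u x : ℝ) : 𝕜)) :
    @Dense (CInf 𝕜) (frechet 𝕜)
      {f | ∃ g ∈ NonUnitalAlgebra.adjoin 𝕜 {s}, (g : I → 𝕜) = f.1} := by
  let : TopologicalSpace (CInf 𝕜) := frechet 𝕜
  intro f
  have hsm : ∀ p : Polynomial 𝕜, ContDiff ℝ (⊤ : ℕ∞)
      (fun y => ((u y : ℝ) : 𝕜) * p.eval ((u y : ℝ) : 𝕜)) := fun p =>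
    (contDiff_ofReal_comp hu).mul (contDiff_poly hu p)
  have hext : ∀ p : Polynomial 𝕜, Set.EqOn (ext (s * Polynomial.aeval s p : C(I, 𝕜)))
      (fun y => ((u y : ℝ) : 𝕜) * p.eval ((u y : ℝ) : 𝕜)) I := by
    intro p x hx
    rw [ext_apply _ hx]
    exact mul_aeval_apply hs p ⟨x, hx⟩
  have hmem : ∀ p : Polynomial 𝕜, ((s * Polynomial.aeval s p : C(I, 𝕜)) : I → 𝕜) ∈ CInf 𝕜 :=
    fun p => (hsm p).contDiffOn.congr (hext p)
  choose p hp using fun N : ℕ => approx' hu hu' hu0 N (ext f.1) f.2 (1 / ((N : ℝ) + 1))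
    (by positivity)
  set q : ℕ → CInf 𝕜 := fun N => ⟨_, hmem (p N)⟩ with hq
  rw [(Topology.IsInducing.induced (fun (f : CInf 𝕜) (n : ℕ) => deriv' n f)).closure_eq_preimage_closure_image]
  rw [Set.mem_preimage]
  refine mem_closure_of_tendsto (f := fun N => (fun (n : ℕ) => deriv' n (q N)))
    (b := atTop) ?_ ?_
  · rw [tendsto_pi_nhds]
    intro n
    rw [tendsto_iff_norm_sub_tendsto_zero]
    refine squeeze_zero' (g := fun N : ℕ => 1 / ((N : ℝ) + 1)) ?_ ?_
      tendsto_one_div_add_atTop_nhds_zero_nat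
    · filter_upwards with N
      exact norm_nonneg _
    · filter_upwards [eventually_ge_atTop n] with N hN
      rw [ContinuousMap.norm_le _ (by positivity)]
      intro x
      have h1 := hp N n hN x x.2
      have h2 : iteratedDerivWithin n (fun y => ext f.1 y - ((u y : ℝ) : 𝕜) *
          (p N).eval ((u y : ℝ) : 𝕜)) I x = deriv' n f x - deriv' n (q N) x := by
        change _ = iteratedDerivWithin n (ext f.1) I x - iteratedDerivWithin n (ext (q N).1) I x
        rw [iteratedDerivWithin_congr (hext (p N)) x.2]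
        exact iteratedDerivWithin_sub x.2 uI
          ((f.2 x x.2).of_le (by exact_mod_cast le_top))
          ((hsm (p N)).contDiffAt.contDiffWithinAt.of_le (by exact_mod_cast le_top))
      rw [h2] at h1
      rw [ContinuousMap.sub_apply, norm_sub_rev]
      exact h1
  · filter_upwards with N
    exact ⟨q N, ⟨_, mul_aeval_mem s (p N), rfl⟩, rfl⟩

/-- density for the exponential generators -/
theorem dense_EF {ι : Type*} {b : ι → ℝ} (hb0 : ∀ i, 0 < b i) (i : ι) :
    @Dense (CInf 𝕜) (frechet 𝕜)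
      {f | ∃ g ∈ NonUnitalAlgebra.adjoin 𝕜 {(EF b i : C(I, 𝕜))}, (g : I → 𝕜) = f.1} := by
  apply dense_single (u := fun x => Real.exp (b i * F x))
  · exact (contDiff_const.mul contDiff_F).exp
  · intro x
    have h1 : HasDerivAt F (deriv F x) x := ((contDiff_F.differentiable (by simp)) x).hasDerivAt
    have h2 := (h1.const_mul (b i)).exp
    rw [h2.deriv]
    exact mul_pos (Real.exp_pos _) (mul_pos (hb0 i) (deriv_F_pos x))
  · intro x
    exact Real.exp_pos _
  · intro x
    rfl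

end Pool.Agent.H967PS
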